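import Mathlib
import Pool.Agent.Helper31.T3.Setup

/-!
Labelled graphs which are changed outside of an interval.
-/

set_option autoImplicit false

namespace Pool.Agent.Helper1.T4

open Pool.Agent.Helper42.Th Pool.Agent.Helper31.T3

section harm

variable {E : Type} {Γ : CMap E} {δ : E} {Ω₁ Ω₂ Ω₃ Ω₄ : Type*} [LinearOrder Ω₁] [LinearOrder Ω₂]
  [LinearOrder Ω₃] [LinearOrder Ω₄] {f : E → Ω₁} {g : E → Ω₂}

lemma harm_comp (h : Harm Γ δ f g) (u : Ω₁ ≃o Ω₃) (v : Ω₂ ≃o Ω₄) :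
    Harm Γ δ (fun d => u (f d)) (fun d => v (g d)) where
  f_rot d := congrArg u (h.f_rot d)
  g_rot d := congrArg v (h.g_rot d)
  pos d h1 h2 h3 := v.monotone (h.pos d h1 h2 (u.le_iff_le.mp h3))
  str d h1 h2 h3 := congrArg u (h.str d h1 h2 (v.injective h3))

lemma harm_const (x : Ω₁) (y : Ω₂) : Harm Γ δ (fun _ => x) (fun _ => y) where
  f_rot _ := rfl
  g_rot _ := rfl
  pos _ _ _ _ := le_rfl
  str _ _ _ _ := rfl

/-- The edge of `δ` is not positive, if its ends are joined by a path. -/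
lemma not_pos [Finite E] (h : Harm Γ δ f g) (h0 : f (Γ.flip δ) < f δ)
    (h1 : g (Γ.flip δ) ≤ g δ) {n : ℕ} {p : ℕ → E} (P : Arc Γ δ n p) : False := by
  have hmax := h.max h0.le
  have hW : ∀ d ∈ {d | f d = f δ}, Γ.rot d ∈ {d | f d = f δ} := by
    intro d hd
    change f (Γ.rot d) = f δ
    rw [h.f_rot]
    exact hd
  have hg : ∀ d, f d = f δ → g (Γ.flip d) ≤ g d := by
    intro d hd
    by_cases h2 : d = δ
    · rw [h2]
      exact h1
    · by_cases h3 : d = Γ.flip δ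
      · rw [h3] at hd
        exact absurd hd h0.ne
      · exact h.pos d h2 h3 (by
          rw [hd]
          exact hmax _)
  have hle : ∀ d ∈ {d | f d = f δ}, g d ≤ g (Γ.rot d) := by
    intro d hd
    have h2 := hg _ (hW d hd)
    rwa [h.g_rot] at h2
  have hc := Harm.chain_const Γ g {d | f d = f δ} hW hle
  have hs : ∀ d, f d = f δ → d ≠ δ → d ≠ Γ.flip δ → f (Γ.flip d) = f δ := by
    intro d hd h2 h3
    obtain ⟨e, rfl⟩ := Γ.rot.surjective d
    have he : f e = f δ := by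
      rw [← hd]
      exact (h.f_rot e).symm
    rw [← hd]
    apply h.str _ h2 h3
    rw [h.g_rot]
    exact (hc e he).symm
  have key : ∀ i ≤ n, f (vx δ Γ n p i) = f δ := by
    intro i
    induction i with
    | zero =>
      intro _
      rw [vx_lt P.pos]
      exact same_eq h.f_rot P.start
    | succ i ih =>
      intro hi
      have h2 := ih (by omega)
      rw [vx_lt (show i < n by omega)] at h2
      rw [← P.f_next h.f_rot (show i < n by omega)]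
      exact hs _ h2 (P.ne i (by omega)) (P.ne_flip (show i < n by omega))
  have h2 := key n le_rfl
  rw [vx_end] at h2
  exact h0.ne h2

end harm

section cut

variable {Ω : Type*} [LinearOrder Ω] {a : Ω ≃o Ω} {z₀ : Ω} (h0 : z₀ < a z₀)
include h0

lemma reg_conv {x y z : Ω} (hx : Reg a z₀ x) (hy : Reg a z₀ y) (h1 : x ≤ z) (h2 : z ≤ y) :
    Reg a z₀ z := by
  obtain ⟨m, m1, _⟩ := hx
  obtain ⟨n, _, n2⟩ := hy
  exact ⟨max m n, (base_anti h0 (le_max_left m n)).trans (m1.trans h1),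
    (h2.trans n2).trans (base_mono h0 (le_max_right m n))⟩

lemma reg_app {φ : Ω ≃o Ω} (h : ∀ z, Reg a z₀ z → a⁻¹ z ≤ φ z ∧ φ z ≤ a z) {z : Ω}
    (hz : Reg a z₀ z) : Reg a z₀ (φ z) := (restr h0 φ h ⟨z, hz⟩).2

lemma reg_symm {φ : Ω ≃o Ω} (h : ∀ z, Reg a z₀ z → a⁻¹ z ≤ φ z ∧ φ z ≤ a z) {z : Ω}
    (hz : Reg a z₀ z) : Reg a z₀ (φ.symm z) := ((restr h0 φ h).symm ⟨z, hz⟩).2

open Classical in
/-- The automorphism which is the identity outside of the interval. -/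
noncomputable def cut (φ : Ω ≃o Ω) (h : ∀ z, Reg a z₀ z → a⁻¹ z ≤ φ z ∧ φ z ≤ a z) :
    Ω ≃o Ω where
  toFun z := if Reg a z₀ z then φ z else z
  invFun z := if Reg a z₀ z then φ.symm z else z
  left_inv z := by
    by_cases hz : Reg a z₀ z
    · simp only [hz, if_true, reg_app h0 h hz, φ.symm_apply_apply]
    · simp only [hz, if_false]
  right_inv z := by
    by_cases hz : Reg a z₀ z
    · simp only [hz, if_true, reg_symm h0 h hz, φ.apply_symm_apply]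
    · simp only [hz, if_false]
  map_rel_iff' {z w} := by
    change (if Reg a z₀ z then φ z else z) ≤ (if Reg a z₀ w then φ w else w) ↔ z ≤ w
    by_cases hz : Reg a z₀ z <;> by_cases hw : Reg a z₀ w
    · rw [if_pos hz, if_pos hw]
      exact φ.le_iff_le
    · rw [if_pos hz, if_neg hw]
      constructor
      · intro h1
        by_contra hn
        push Not at hn
        exact hw (reg_conv h0 (reg_app h0 h hz) hz h1 hn.le)
      · intro h1
        by_contra hn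
        push Not at hn
        exact hw (reg_conv h0 hz (reg_app h0 h hz) h1 hn.le)
    · rw [if_neg hz, if_pos hw]
      constructor
      · intro h1
        by_contra hn
        push Not at hn
        exact hz (reg_conv h0 hw (reg_app h0 h hw) hn.le h1)
      · intro h1
        by_contra hn
        push Not at hn
        exact hz (reg_conv h0 (reg_app h0 h hw) hw hn.le h1)
    · rw [if_neg hz, if_neg hw]

variable {φ : Ω ≃o Ω} (h : ∀ z, Reg a z₀ z → a⁻¹ z ≤ φ z ∧ φ z ≤ a z)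

lemma cut_in {z : Ω} (hz : Reg a z₀ z) : cut h0 φ h z = φ z := if_pos hz

lemma cut_out {z : Ω} (hz : ¬ Reg a z₀ z) : cut h0 φ h z = z := if_neg hz

end cut

section sys

variable {E : Type} [Finite E] {Ω : Type*} [LinearOrder Ω] {Γ : CMap E} {δ : E}
  {X Y : E → Ω ≃o Ω} {a b : Ω ≃o Ω} {z₀ : Ω}

/-- The labels satisfy the rules on the interval of `z₀`. -/
structure LSys (Γ : CMap E) (δ : E) (X Y : E → Ω ≃o Ω) (a b : Ω ≃o Ω) (z₀ : Ω) : Prop where
  harm : ∀ z, Harm Γ δ (fun d => X d z) (fun d => Y d z)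
  ha : ∀ z, X (Γ.flip δ) (a z) = X δ z
  hb : ∀ z, Y δ (b z) = Y (Γ.flip δ) z
  comm : ∀ z, a (b z) = b (a z)
  gt : z₀ < a z₀
  up : ∀ z, Reg a z₀ z → z < b z
  le : ∀ z, Reg a z₀ z → b z ≤ a z

namespace LSys

variable (S : LSys Γ δ X Y a b z₀)
include S

lemma ext {z : Ω} (hz : Reg a z₀ z) (d : E) :
    X (Γ.flip δ) z ≤ X d z ∧ X d z ≤ X δ z ∧ Y δ z ≤ Y d z ∧ Y d z ≤ Y (Γ.flip δ) z := by
  refine (S.harm z).ext ?_ ?_ d
  · rw [← S.ha z]
    exact (X (Γ.flip δ)).monotone (reg_lt S.gt hz).le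
  · rw [← S.hb z]
    exact (Y δ).monotone (S.up z hz).le

lemma xb (d : E) (z : Ω) (hz : Reg a z₀ z) :
    a⁻¹ z ≤ ((X (Γ.flip δ))⁻¹ * X d) z ∧ ((X (Γ.flip δ))⁻¹ * X d) z ≤ a z := by
  have h1 := S.ext hz d
  rw [RelIso.mul_apply]
  constructor
  · refine (inv_le S.gt hz).trans ?_
    rw [← (X (Γ.flip δ)).le_iff_le, RelIso.apply_inv_self]
    exact h1.1
  · rw [← (X (Γ.flip δ)).le_iff_le, RelIso.apply_inv_self, S.ha]
    exact h1.2.1

lemma yb (d : E) (z : Ω) (hz : Reg a z₀ z) :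
    a⁻¹ z ≤ ((Y δ)⁻¹ * Y d) z ∧ ((Y δ)⁻¹ * Y d) z ≤ a z := by
  have h1 := S.ext hz d
  rw [RelIso.mul_apply]
  constructor
  · refine (inv_le S.gt hz).trans ?_
    rw [← (Y δ).le_iff_le, RelIso.apply_inv_self]
    exact h1.2.2.1
  · refine le_trans ?_ (S.le z hz)
    rw [← (Y δ).le_iff_le, RelIso.apply_inv_self, S.hb]
    exact h1.2.2.2

lemma bb (z : Ω) (hz : Reg a z₀ z) : a⁻¹ z ≤ b z ∧ b z ≤ a z :=
  ⟨(inv_le S.gt hz).trans (S.up z hz).le, S.le z hz⟩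

lemma ab (z : Ω) (hz : Reg a z₀ z) : a⁻¹ z ≤ a z ∧ a z ≤ a z :=
  ⟨(inv_le S.gt hz).trans (reg_lt S.gt hz).le, le_rfl⟩

/-- The new labels. -/
noncomputable def X' (d : E) : Ω ≃o Ω := cut S.gt _ (S.xb d)

noncomputable def Y' (d : E) : Ω ≃o Ω := cut S.gt _ (S.yb d)

noncomputable def a' : Ω ≃o Ω := cut S.gt a S.ab

noncomputable def b' : Ω ≃o Ω := cut S.gt b S.bb

lemma X'_in (d : E) {z : Ω} (hz : Reg a z₀ z) : S.X' d z = (X (Γ.flip δ))⁻¹ (X d z) :=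
  cut_in _ _ hz

lemma X'_out (d : E) {z : Ω} (hz : ¬ Reg a z₀ z) : S.X' d z = z := cut_out _ _ hz

lemma Y'_in (d : E) {z : Ω} (hz : Reg a z₀ z) : S.Y' d z = (Y δ)⁻¹ (Y d z) := cut_in _ _ hz

lemma Y'_out (d : E) {z : Ω} (hz : ¬ Reg a z₀ z) : S.Y' d z = z := cut_out _ _ hz

lemma a'_in {z : Ω} (hz : Reg a z₀ z) : S.a' z = a z := cut_in _ _ hz

lemma a'_out {z : Ω} (hz : ¬ Reg a z₀ z) : S.a' z = z := cut_out _ _ hz

lemma b'_in {z : Ω} (hz : Reg a z₀ z) : S.b' z = b z := cut_in _ _ hz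

lemma b'_out {z : Ω} (hz : ¬ Reg a z₀ z) : S.b' z = z := cut_out _ _ hz

lemma reg_a {z : Ω} (hz : Reg a z₀ z) : Reg a z₀ (a z) := reg_app S.gt S.ab hz

lemma reg_b {z : Ω} (hz : Reg a z₀ z) : Reg a z₀ (b z) := reg_app S.gt S.bb hz

/-- The new labels satisfy the rules everywhere. -/
theorem sys : Sys Γ δ S.X' S.Y' S.a' S.b' 1 where
  harm z := by
    by_cases hz : Reg a z₀ z
    · have := harm_comp (S.harm z) (X (Γ.flip δ))⁻¹ (Y δ)⁻¹
      simp only [S.X'_in _ hz, S.Y'_in _ hz]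
      exact this
    · simp only [S.X'_out _ hz, S.Y'_out _ hz]
      exact harm_const z z
  ha z := by
    by_cases hz : Reg a z₀ z
    · rw [S.a'_in hz, S.X'_in _ (S.reg_a hz), S.X'_in _ hz, S.ha]
    · rw [S.a'_out hz, S.X'_out _ hz, S.X'_out _ hz]
  hb z := by
    by_cases hz : Reg a z₀ z
    · rw [S.b'_in hz, S.Y'_in _ (S.reg_b hz), S.Y'_in _ hz, S.hb]
    · rw [S.b'_out hz, S.Y'_out _ hz, S.Y'_out _ hz]
  comm z := by
    by_cases hz : Reg a z₀ z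
    · rw [S.b'_in hz, S.a'_in hz, S.a'_in (S.reg_b hz), S.b'_in (S.reg_a hz), S.comm]
    · rw [S.b'_out hz, S.a'_out hz, S.b'_out hz]
  kpos := one_pos
  up z _ := by
    rw [pow_one]
    by_cases hz : Reg a z₀ z
    · rw [S.b'_in hz, S.a'_in hz]
      exact S.le z hz
    · rw [S.b'_out hz, S.a'_out hz]
  dn z h := by
    rw [pow_one]
    by_cases hz : Reg a z₀ z
    · rw [S.b'_in hz] at h
      exact absurd h (not_le.mpr (S.up z hz))
    · rw [S.b'_out hz, S.a'_out hz]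

lemma gt' : z₀ < S.a' z₀ := by
  rw [S.a'_in (reg_self a z₀)]
  exact S.gt

lemma N_in (d : E) {z : Ω} (hz : Reg a z₀ z) :
    Sys.N Γ S.Y' d z = Sys.N Γ Y d z ∧ Reg a z₀ (Sys.N Γ Y d z) := by
  have h1 : Reg a z₀ (S.Y' d z) := by
    rw [S.Y'_in _ hz]
    exact reg_app S.gt (S.yb d) hz
  have h2 : Reg a z₀ ((S.Y' (Γ.flip d)).symm (S.Y' d z)) := by
    have h3 : (S.Y' (Γ.flip d)).symm (S.Y' d z) =
        ((Y δ)⁻¹ * Y (Γ.flip d)).symm (S.Y' d z) := if_pos h1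
    rw [h3]
    exact reg_symm S.gt (S.yb _) h1
  have h4 : Sys.N Γ S.Y' d z = Sys.N Γ Y d z := by
    apply (Y (Γ.flip d)).injective
    rw [Sys.Y_N]
    apply (Y δ)⁻¹.injective
    rw [← S.Y'_in _ hz, ← Sys.Y_N (Γ := Γ) (Y := S.Y') d z]
    exact (S.Y'_in _ h2).symm
  exact ⟨h4, h4 ▸ h2⟩

lemma N_out (d : E) {z : Ω} (hz : ¬ Reg a z₀ z) : Sys.N Γ S.Y' d z = z := by
  apply (S.Y' (Γ.flip d)).injective
  rw [Sys.Y_N, S.Y'_out _ hz, S.Y'_out _ hz]

lemma Npow_in (d : E) (ℓ : ℕ) {z : Ω} (hz : Reg a z₀ z) :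
    (Sys.N Γ S.Y' d ^ ℓ) z = (Sys.N Γ Y d ^ ℓ) z ∧ Reg a z₀ ((Sys.N Γ Y d ^ ℓ) z) := by
  induction ℓ with
  | zero => exact ⟨rfl, hz⟩
  | succ ℓ ih =>
    rw [pow_succ', pow_succ', RelIso.mul_apply, RelIso.mul_apply, ih.1]
    exact S.N_in d ih.2

lemma Npow_out (d : E) (ℓ : ℕ) {z : Ω} (hz : ¬ Reg a z₀ z) :
    (Sys.N Γ S.Y' d ^ ℓ) z = z := by
  induction ℓ with
  | zero => rfl
  | succ ℓ ih =>
    rw [pow_succ', RelIso.mul_apply, ih, S.N_out d hz]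

/-- The slopes. -/
lemma slope {d : E} {ℓ : ℕ} (h : Slope Γ X Y d ℓ) : Slope Γ S.X' S.Y' d ℓ := by
  intro z hz
  by_cases hR : Reg a z₀ z
  · rw [S.X'_in _ hR, S.X'_in _ hR] at hz
    obtain ⟨h1, h2⟩ := S.Npow_in d ℓ hR
    rw [h1, S.X'_in _ hR, S.X'_in _ h2]
    exact (X (Γ.flip δ))⁻¹.monotone (h z ((X (Γ.flip δ))⁻¹.le_iff_le.mp hz))
  · rw [S.Npow_out d ℓ hR, S.X'_out _ hR, S.X'_out _ hR]

end LSys

end sys

end Pool.Agent.Helper1.T4
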