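import Mathlib
import Pool.Agent.Helper42.T4.Main
import Pool.Agent.Helper1.T4.Loc

/-!
Paths side by side for labels which do not come from an action of a group.
-/

set_option autoImplicit false

namespace Pool.Agent.Helper1.T4

open Pool.Agent.Helper42.Th Pool.Agent.Helper31.T3 Pool.Agent.Helper42.T3 Pool.Agent.Helper42.T4

variable {E : Type} {Ω : Type*} [LinearOrder Ω] {Γ : CMap E} {δ : E}
  {X Y : E → Ω ≃o Ω} {a b : Ω ≃o Ω} {z₀ : Ω} {N n M m : ℕ} {p q : ℕ → E} {F F' : E → Prop}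

/-- A path of length at most `N` and one of its sides. -/
structure RouteS (Γ : CMap E) (X Y : E → Ω ≃o Ω) (δ : E) (N n : ℕ) (p : ℕ → E)
    (F : E → Prop) : Prop where
  arc : Arc Γ δ n p
  side : Side Γ δ n p {d | F d}
  length : ∃ ℓ : ℕ → ℕ, (∀ i < n, 0 < ℓ i ∧ Slope Γ X Y (p i) (ℓ i)) ∧
    ∑ i ∈ Finset.range n, ℓ i ≤ N

lemma routeS_of {G : Type*} [Group G] {L : Lab G Γ} {Ω : Type*} [CompleteLinearOrder Ω]
    (ρ : G →* (Ω ≃o Ω)) (h : Route L δ N n p F) : RouteS Γ (lx L ρ) (ly L ρ) δ N n p F := by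
  obtain ⟨ℓ, h1, h2⟩ := h.length
  exact ⟨arc_of_route h, side_of_route h,
    ⟨ℓ, fun i hi => ⟨(h1 i hi).1, slope_of_within ρ (h1 i hi).2⟩, h2⟩⟩

lemma RouteS.mono (h : RouteS Γ X Y δ N n p F) (hN : N ≤ M) : RouteS Γ X Y δ M n p F := by
  obtain ⟨ℓ, h1, h2⟩ := h.length
  exact ⟨h.arc, h.side, ⟨ℓ, h1, h2.trans hN⟩⟩

lemma bJ_pow (S : Sys Γ δ X Y a b 1) (h0 : z₀ < a z₀) (n : ℕ)
    (z : {z // Reg a z₀ z}) : ((bJ S h0 ^ n) z).1 = (b ^ n) z.1 := by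
  induction n generalizing z with
  | zero => rfl
  | succ n ih =>
    rw [pow_succ, pow_succ, RelIso.mul_apply, RelIso.mul_apply, ih]
    rfl

lemma aJ_pow' (h0 : z₀ < a z₀) (n : ℕ) (z : {z // Reg a z₀ z}) :
    ((aJ h0 ^ n) z).1 = (a ^ n) z.1 := by
  induction n generalizing z with
  | zero => rfl
  | succ n ih =>
    rw [pow_succ, pow_succ, RelIso.mul_apply, RelIso.mul_apply, ih]
    rfl

variable [Finite E] (S : Sys Γ δ X Y a b 1) (h0 : z₀ < a z₀)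
include S h0

/-- The path of a route. -/
noncomputable def rt (h : RouteS Γ X Y δ N n p F) (M : ℕ) (hM : N ≤ M) :
    FPth (aJ h0) (bJ S h0) M (fun _ => 1) :=
  unit (toF S h0 h.arc h.length.choose h.length.choose_spec.1) M (by
      refine le_trans ?_ (h.length.choose_spec.2.trans hM)
      refine le_of_eq (Finset.sum_congr rfl fun i hi => ?_)
      change (if i + 1 - 1 < n then h.length.choose (i + 1 - 1) else 1) = h.length.choose i
      rw [Nat.add_sub_cancel, if_pos (Finset.mem_range.mp hi)])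

lemma rt_left (hp : RouteS Γ X Y δ N n p F) (hq : RouteS Γ X Y δ M m q F') (D : Disj Γ n p m q)
    (hs : ∀ d, F' d → F d) (N' M' : ℕ) (hN : N ≤ N') (hM : M ≤ M') :
    (rt S h0 hp N' hN).Left (rt S h0 hq M' hM) :=
  left_unit (toF_left S h0 hp.arc hq.arc D hp.side hq.side hs _ _ _ _) _ _ _ _

lemma left_or (hp : RouteS Γ X Y δ N n p F) (hq : RouteS Γ X Y δ M m q F')
    (h : Apart Γ n m p q F F') (N' M' : ℕ) (hN : N ≤ N') (hM : M ≤ M') :
    (rt S h0 hp N' hN).Left (rt S h0 hq M' hM) ∨ (rt S h0 hq M' hM).Left (rt S h0 hp N' hN) := by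
  have D := disj_of_apart h
  rcases h.2.2 with s | s
  · exact Or.inr (rt_left S h0 hq hp D.symm s _ _ _ _)
  · exact Or.inl (rt_left S h0 hp hq D s _ _ _ _)

/-- Three paths of the lengths `2`, `2` and `C`. -/
lemma tri_two {l : ℕ} {o : ℕ → E} {F'' : E → Prop} {C : ℕ} (ho : RouteS Γ X Y δ 2 l o F)
    (hp : RouteS Γ X Y δ 2 n p F') (hq : RouteS Γ X Y δ C m q F'') (hop : Apart Γ l n o p F F')
    (hoq : Apart Γ l m o q F F'') (hpq : Apart Γ n m p q F' F'') : False := by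
  have hk : ∀ z, bJ S h0 z ≤ aJ h0 z := fun z => S.b_le_a (reg_lt h0 z.2).le
  have z : {z // Reg a z₀ z} := ⟨z₀, reg_self a z₀⟩
  have D1 := disj_of_apart hop
  have D2 := disj_of_apart hoq
  have D3 := disj_of_apart hpq
  rcases hop.2.2 with s1 | s1 <;> rcases hoq.2.2 with s2 | s2 <;> rcases hpq.2.2 with s3 | s3
  · exact two_false hk (P := rt S h0 hp 2 le_rfl) (Q := rt S h0 ho 2 le_rfl)
      (R := rt S h0 hq C le_rfl) (rt_left S h0 hp ho D1.symm s1 _ _ _ _)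
      (Or.inl ⟨rt_left S h0 hq hp D3.symm s3 _ _ _ _, rt_left S h0 hq ho D2.symm s2 _ _ _ _⟩) z
  · exact two_false hk (P := rt S h0 hp 2 le_rfl) (Q := rt S h0 ho 2 le_rfl)
      (R := rt S h0 hq C le_rfl) (rt_left S h0 hp ho D1.symm s1 _ _ _ _)
      (Or.inr (Or.inl ⟨rt_left S h0 hp hq D3 s3 _ _ _ _,
        rt_left S h0 hq ho D2.symm s2 _ _ _ _⟩)) z
  · exact two_false hk (P := rt S h0 hp 2 le_rfl) (Q := rt S h0 ho 2 le_rfl)
      (R := rt S h0 hq C le_rfl) (rt_left S h0 hp ho D1.symm s1 _ _ _ _)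
      (Or.inr (Or.inr ⟨rt_left S h0 hp hq D3 (fun d h => s1 d (s2 d h)) _ _ _ _,
        rt_left S h0 ho hq D2 s2 _ _ _ _⟩)) z
  · exact two_false hk (P := rt S h0 hp 2 le_rfl) (Q := rt S h0 ho 2 le_rfl)
      (R := rt S h0 hq C le_rfl) (rt_left S h0 hp ho D1.symm s1 _ _ _ _)
      (Or.inr (Or.inr ⟨rt_left S h0 hp hq D3 s3 _ _ _ _,
        rt_left S h0 ho hq D2 s2 _ _ _ _⟩)) z
  · exact two_false hk (P := rt S h0 ho 2 le_rfl) (Q := rt S h0 hp 2 le_rfl)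
      (R := rt S h0 hq C le_rfl) (rt_left S h0 ho hp D1 s1 _ _ _ _)
      (Or.inl ⟨rt_left S h0 hq ho D2.symm s2 _ _ _ _, rt_left S h0 hq hp D3.symm s3 _ _ _ _⟩) z
  · exact two_false hk (P := rt S h0 ho 2 le_rfl) (Q := rt S h0 hp 2 le_rfl)
      (R := rt S h0 hq C le_rfl) (rt_left S h0 ho hp D1 s1 _ _ _ _)
      (Or.inl ⟨rt_left S h0 hq ho D2.symm s2 _ _ _ _,
        rt_left S h0 hq hp D3.symm (fun d h => s2 d (s1 d h)) _ _ _ _⟩) z
  · exact two_false hk (P := rt S h0 ho 2 le_rfl) (Q := rt S h0 hp 2 le_rfl)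
      (R := rt S h0 hq C le_rfl) (rt_left S h0 ho hp D1 s1 _ _ _ _)
      (Or.inr (Or.inl ⟨rt_left S h0 ho hq D2 s2 _ _ _ _,
        rt_left S h0 hq hp D3.symm s3 _ _ _ _⟩)) z
  · exact two_false hk (P := rt S h0 ho 2 le_rfl) (Q := rt S h0 hp 2 le_rfl)
      (R := rt S h0 hq C le_rfl) (rt_left S h0 ho hp D1 s1 _ _ _ _)
      (Or.inr (Or.inr ⟨rt_left S h0 ho hq D2 s2 _ _ _ _,
        rt_left S h0 hp hq D3 s3 _ _ _ _⟩)) z

/-- Three paths of the lengths `2`, `3` and `5`. -/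
lemma tri_three {l : ℕ} {o : ℕ → E} {F'' : E → Prop} (ho : RouteS Γ X Y δ 2 l o F)
    (hp : RouteS Γ X Y δ 3 n p F') (hq : RouteS Γ X Y δ 5 m q F'') (hop : Apart Γ l n o p F F')
    (hoq : Apart Γ l m o q F F'') (hpq : Apart Γ n m p q F' F'') : False := by
  have z : {z // Reg a z₀ z} := ⟨z₀, reg_self a z₀⟩
  have hk : ∀ z, bJ S h0 z ≤ aJ h0 z := fun z => S.b_le_a (reg_lt h0 z.2).le
  have D1 := disj_of_apart hop
  have D2 := disj_of_apart hoq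
  have D3 := disj_of_apart hpq
  refine three hk (rt S h0 ho 2 le_rfl) (rt S h0 hp 3 le_rfl) (rt S h0 hq 5 le_rfl) z ?_
  rcases hop.2.2 with s1 | s1 <;> rcases hoq.2.2 with s2 | s2 <;> rcases hpq.2.2 with s3 | s3
  · exact Or.inr (Or.inr (Or.inr (Or.inl ⟨rt_left S h0 hq hp D3.symm s3 _ _ _ _,
      rt_left S h0 hp ho D1.symm s1 _ _ _ _, rt_left S h0 hq ho D2.symm s2 _ _ _ _⟩)))
  · exact Or.inr (Or.inr (Or.inr (Or.inr (Or.inr ⟨rt_left S h0 hp hq D3 s3 _ _ _ _,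
      rt_left S h0 hq ho D2.symm s2 _ _ _ _, rt_left S h0 hp ho D1.symm s1 _ _ _ _⟩))))
  · exact Or.inr (Or.inl ⟨rt_left S h0 hp ho D1.symm s1 _ _ _ _,
      rt_left S h0 ho hq D2 s2 _ _ _ _, rt_left S h0 hp hq D3 (fun d h => s1 d (s2 d h)) _ _ _ _⟩)
  · exact Or.inr (Or.inl ⟨rt_left S h0 hp ho D1.symm s1 _ _ _ _,
      rt_left S h0 ho hq D2 s2 _ _ _ _, rt_left S h0 hp hq D3 s3 _ _ _ _⟩)
  · exact Or.inr (Or.inr (Or.inr (Or.inr (Or.inl ⟨rt_left S h0 hq ho D2.symm s2 _ _ _ _,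
      rt_left S h0 ho hp D1 s1 _ _ _ _, rt_left S h0 hq hp D3.symm s3 _ _ _ _⟩))))
  · exact Or.inr (Or.inr (Or.inr (Or.inr (Or.inl ⟨rt_left S h0 hq ho D2.symm s2 _ _ _ _,
      rt_left S h0 ho hp D1 s1 _ _ _ _,
      rt_left S h0 hq hp D3.symm (fun d h => s2 d (s1 d h)) _ _ _ _⟩))))
  · exact Or.inr (Or.inr (Or.inl ⟨rt_left S h0 ho hq D2 s2 _ _ _ _,
      rt_left S h0 hq hp D3.symm s3 _ _ _ _, rt_left S h0 ho hp D1 s1 _ _ _ _⟩))
  · exact Or.inl ⟨rt_left S h0 ho hp D1 s1 _ _ _ _, rt_left S h0 hp hq D3 s3 _ _ _ _,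
      rt_left S h0 ho hq D2 s2 _ _ _ _⟩

/-- The negative edge does not move points up. -/
theorem not_up {p q : ℕ} (hp : ∀ z, Reg a z₀ z → (b ^ p) z ≤ (a ^ q) z) (hq : 0 < q)
    (hpq : q ≤ p) {j : ℕ} (n len : Fin j → ℕ) (w : Fin j → ℕ → E) (A : Fin j → E → Prop)
    (hr : ∀ i, RouteS Γ X Y δ (n i) (len i) (w i) (A i))
    (ha : ∀ i i', i ≠ i' → Apart Γ (len i) (len i') (w i) (w i') (A i) (A i'))
    (h1 : (q : ℚ) / p < ∑ i, 1 / (n i : ℚ)) (h2 : ¬ Realizable ((q : ℚ) / p) n) : False := by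
  have z' : {t // Reg a z₀ t} := ⟨z₀, reg_self a z₀⟩
  have hn : ∀ i, 0 < n i := by
    intro i
    obtain ⟨ℓ, e1, e2⟩ := (hr i).length
    have e3 := (e1 0 (hr i).arc.pos).1
    have e4 : ℓ 0 ≤ ∑ i ∈ Finset.range (len i), ℓ i :=
      Finset.single_le_sum (f := ℓ) (fun _ _ => Nat.zero_le _)
        (Finset.mem_range.mpr (hr i).arc.pos)
    omega
  have hk : ∀ z, bJ S h0 z ≤ aJ h0 z := fun z => S.b_le_a (reg_lt h0 z.2).le
  have hc : ∀ z, aJ h0 (bJ S h0 z) = bJ S h0 (aJ h0 z) := fun z => Subtype.ext (S.comm z.1)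
  have hJ : ∀ z, (bJ S h0 ^ p) z ≤ (aJ h0 ^ q) z := by
    intro z
    change ((bJ S h0 ^ p) z).1 ≤ ((aJ h0 ^ q) z).1
    rw [bJ_pow, aJ_pow']
    exact hp _ z.2
  have hb : ∀ (i : Fin j), ∀ z, z < bJ S h0 z := fun i => b_gt (rt S h0 (hr i) (n i) le_rfl)
  cases cases_of hn hq hpq h1 h2 with
  | a i h => exact one_lt_false hJ (rt S h0 (hr i) (n i) le_rfl) h z'
  | a' i i' hi h =>
    exact one_eq_false hJ (rt S h0 (hr i) (n i) le_rfl) (rt S h0 (hr i') (n i') le_rfl)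
      (left_or S h0 (hr i) (hr i') (ha i i' hi) _ _ _ _) hq h z'
  | b i i' hi c h2 hc1 h h' hr' =>
    exact blockB h2 hc1 h (pow_cross hc (hb i) hq hJ hr') hc (rt S h0 (hr i) (n i) le_rfl)
      (rt S h0 (hr i') ((c + 1) * n i - 1) h')
      (left_or S h0 (hr i) (hr i') (ha i i' hi) _ _ _ _) z'
  | c i i' hi h h' hr' =>
    exact two_three_false hc (pow_cross hc (hb i) hq hJ (by omega)) (rt S h0 (hr i) 2 h.le)
      (rt S h0 (hr i') 3 h'.le) (left_or S h0 (hr i) (hr i') (ha i i' hi) _ _ _ _) z'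
  | d i i' i'' hi hi' hi'' h h' =>
    exact tri_two S h0 ((hr i).mono h.le) ((hr i').mono h'.le) (hr i'') (ha _ _ hi) (ha _ _ hi')
      (ha _ _ hi'')
  | d' i i' i'' hi hi' hi'' h h' h'' =>
    exact tri_three S h0 ((hr i).mono h.le) ((hr i').mono h'.le) ((hr i'').mono h'') (ha _ _ hi)
      (ha _ _ hi') (ha _ _ hi'')
  | e i i' hi h h' hr' =>
    exact two_two_false hk hJ hr' (left_or S h0 (hr i) (hr i') (ha i i' hi) 2 2 h.le h'.le) z'

end Pool.Agent.Helper1.T4
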