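import Mathlib
import Pool.Agent.Helper1.T4.Gen

/-!
The slope of the negative edge at one point: in a labelled graph with paths side by side, the two
elements of the negative edge satisfy a strict inequality at every point which the first one moves
up.
-/

set_option autoImplicit false

namespace Pool.Agent.Helper1.T4

open Pool.Agent.Helper42.Th Pool.Agent.Helper31.T3 Pool.Agent.Helper42.T3 Pool.Agent.Helper42.T4

section num

variable {Ω : Type*} [LinearOrder Ω] {a b : Ω ≃o Ω}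

lemma pow_le_of (hc : ∀ z, a (b z) = b (a z)) {z : Ω} (h : a z ≤ b z) (n : ℕ) :
    (a ^ n) z ≤ (b ^ n) z := by
  have hb : ∀ (m : ℕ) z, a ((b ^ m) z) = (b ^ m) (a z) := by
    intro m
    induction m with
    | zero => intro z; rfl
    | succ m ihm =>
      intro z
      rw [pow_succ', RelIso.mul_apply, RelIso.mul_apply, hc, ihm]
  induction n with
  | zero => exact le_rfl
  | succ n ih =>
    rw [pow_succ' a, pow_succ b, RelIso.mul_apply, RelIso.mul_apply]
    refine (a.monotone ih).trans ?_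
    rw [hb]
    exact (b ^ n).monotone h

lemma comm_pow (hc : ∀ z, a (b z) = b (a z)) (m n : ℕ) (z : Ω) :
    (a ^ m) ((b ^ n) z) = (b ^ n) ((a ^ m) z) := by
  have hC : Commute a b := by
    ext t
    exact hc t
  rw [← RelIso.mul_apply, ← RelIso.mul_apply, (hC.pow_pow m n).eq]

/-- The rotation number of `b` with respect to `a` is the same at all points. -/
theorem slope_all (hc : ∀ z, a (b z) = b (a z)) {z₀ : Ω} (h0 : z₀ < a z₀) {p q p' q' : ℕ}
    (hlt : q * p' < q' * p) {x : Ω} (hx : Reg a z₀ x) (h : (b ^ p) x ≤ (a ^ q) x) {y : Ω}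
    (hy : Reg a z₀ y) : (b ^ p') y ≤ (a ^ q') y := by
  by_contra hn
  push Not at hn
  have up : ∀ {s t : Ω}, Reg a z₀ s → Reg a z₀ t → ∃ k, ∀ l, k ≤ l → s ≤ (a ^ l) t := by
    intro s t hs ht
    obtain ⟨m, _, m2⟩ := hs
    obtain ⟨n, n1, _⟩ := ht
    refine ⟨m + n, fun l hl => ?_⟩
    obtain ⟨e, rfl⟩ : ∃ e, l = m + n + e := ⟨l - (m + n), by omega⟩
    have h1 : z₀ ≤ (a ^ n) t := by
      have := (a ^ n).monotone n1
      rwa [← RelIso.mul_apply, inv_pow, mul_inv_cancel] at this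
    have h2 : (a ^ m) z₀ ≤ (a ^ (m + e)) z₀ := base_mono h0 (Nat.le_add_right m e)
    refine m2.trans (h2.trans (((a ^ (m + e)).monotone h1).trans (le_of_eq ?_)))
    rw [← RelIso.mul_apply, ← pow_add]
    congr 2
    omega
  obtain ⟨k1, hk1⟩ := up hy hx
  obtain ⟨k2, hk2⟩ := up hx hy
  set k := k1 + k2 with hk
  set N := 2 * k + 1 with hN
  -- the upper bound at `x`
  have e1 : (b ^ (p * p' * N)) x ≤ (a ^ (q * p' * N)) x := by
    have := pow_le_of (a := b ^ p) (b := a ^ q) (fun z => (comm_pow hc q p z).symm) h (p' * N)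
    rwa [← pow_mul, ← pow_mul, ← Nat.mul_assoc, ← Nat.mul_assoc] at this
  -- the lower bound at `y`
  have e2 : (a ^ (q' * p * N)) y ≤ (b ^ (p' * p * N)) y := by
    have := pow_le_of (a := a ^ q') (b := b ^ p') (fun z => comm_pow hc q' p' z) hn.le (p * N)
    rwa [← pow_mul, ← pow_mul, ← Nat.mul_assoc, ← Nat.mul_assoc] at this
  have e3 : (b ^ (p' * p * N)) y ≤ (a ^ (k + q * p' * N + k)) y := by
    have h1 := (b ^ (p' * p * N)).monotone (hk1 k (by omega))
    refine h1.trans ?_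
    rw [← comm_pow hc, Nat.mul_comm p' p]
    have h2 := (a ^ k).monotone e1
    refine h2.trans ?_
    have h3 := (a ^ (k + q * p' * N)).monotone (hk2 k (by omega))
    rw [← RelIso.mul_apply, ← pow_add] at h3
    rw [← RelIso.mul_apply, ← pow_add]
    exact h3
  have e4 := e2.trans e3
  have e5 : k + q * p' * N + k < q' * p * N := by
    have h1 : (q * p' + 1) * N ≤ q' * p * N := Nat.mul_le_mul_right N hlt
    rw [Nat.add_mul, Nat.one_mul] at h1
    omega
  have e6 : (a ^ (k + q * p' * N + k)) y < (a ^ (q' * p * N)) y := by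
    obtain ⟨e, he⟩ : ∃ e, q' * p * N = k + q * p' * N + k + (e + 1) :=
      ⟨q' * p * N - (k + q * p' * N + k) - 1, by omega⟩
    rw [he, pow_add _ (k + q * p' * N + k) (e + 1), RelIso.mul_apply]
    apply (a ^ (k + q * p' * N + k)).strictMono
    have hyl : ∀ e : ℕ, y < (a ^ (e + 1)) y := by
      intro e
      induction e with
      | zero =>
        rw [zero_add, pow_one]
        exact reg_lt h0 hy
      | succ e ih =>
        rw [pow_succ', RelIso.mul_apply]
        exact (reg_lt h0 hy).trans (a.strictMono ih)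
    exact hyl e
  exact absurd e4 (not_le.mpr e6)

end num

section point

variable {E : Type} [Finite E] {Ω : Type*} [LinearOrder Ω] {Γ : CMap E} {δ : E}
  {X Y : E → Ω ≃o Ω} {a b : Ω ≃o Ω} {z₀ : Ω}

lemma LSys.pow_a (S : LSys Γ δ X Y a b z₀) (n : ℕ) {z : Ω} (hz : Reg a z₀ z) :
    (S.a' ^ n) z = (a ^ n) z ∧ Reg a z₀ ((a ^ n) z) := by
  induction n with
  | zero => exact ⟨rfl, hz⟩
  | succ n ih =>
    rw [pow_succ', pow_succ', RelIso.mul_apply, RelIso.mul_apply, ih.1, S.a'_in ih.2]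
    exact ⟨rfl, S.reg_a ih.2⟩

lemma LSys.pow_b (S : LSys Γ δ X Y a b z₀) (n : ℕ) {z : Ω} (hz : Reg a z₀ z) :
    (S.b' ^ n) z = (b ^ n) z ∧ Reg a z₀ ((b ^ n) z) := by
  induction n with
  | zero => exact ⟨rfl, hz⟩
  | succ n ih =>
    rw [pow_succ', pow_succ', RelIso.mul_apply, RelIso.mul_apply, ih.1, S.b'_in ih.2]
    exact ⟨rfl, S.reg_b ih.2⟩

lemma LSys.pow_a_out (S : LSys Γ δ X Y a b z₀) (n : ℕ) {z : Ω} (hz : ¬ Reg a z₀ z) :
    (S.a' ^ n) z = z := by
  induction n with
  | zero => rfl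
  | succ n ih => rw [pow_succ', RelIso.mul_apply, ih, S.a'_out hz]

lemma LSys.pow_b_out (S : LSys Γ δ X Y a b z₀) (n : ℕ) {z : Ω} (hz : ¬ Reg a z₀ z) :
    (S.b' ^ n) z = z := by
  induction n with
  | zero => rfl
  | succ n ih => rw [pow_succ', RelIso.mul_apply, ih, S.b'_out hz]

/-- The slope of the negative edge at one point. -/
theorem point (harm : ∀ z, Harm Γ δ (fun d => X d z) (fun d => Y d z))
    (hX : ∀ z, X (Γ.flip δ) (a z) = X δ z) (hY : ∀ z, Y δ (b z) = Y (Γ.flip δ) z)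
    (hc : ∀ z, a (b z) = b (a z)) {p q p' q' : ℕ} (hq' : 0 < q') (hpq' : q' ≤ p')
    (hlt : q * p' < q' * p) {j : ℕ} (n len : Fin j → ℕ) (w : Fin j → ℕ → E)
    (A : Fin j → E → Prop) (hr : ∀ i, RouteS Γ X Y δ (n i) (len i) (w i) (A i))
    (ha : ∀ i i', i ≠ i' → Apart Γ (len i) (len i') (w i) (w i') (A i) (A i'))
    (h1 : (q' : ℚ) / p' < ∑ i, 1 / (n i : ℚ)) (h2 : ¬ Realizable ((q' : ℚ) / p') n) {z : Ω}
    (hz : z < a z) : (a ^ q) z < (b ^ p) z := by
  by_contra hn
  push Not at hn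
  -- there is a path
  obtain ⟨i₀⟩ : Nonempty (Fin j) := by
    by_contra he
    rw [not_nonempty_iff] at he
    rw [Finset.univ_eq_empty, Finset.sum_empty] at h1
    exact absurd h1 (not_lt.mpr (by positivity))
  have up : ∀ t, Reg a z t → t < b t := by
    intro t ht
    by_contra hb
    push Not at hb
    refine not_pos (harm t) ?_ ?_ (hr i₀).arc
    · change X (Γ.flip δ) t < X δ t
      rw [← hX]
      exact (X (Γ.flip δ)).strictMono (reg_lt hz ht)
    · change Y (Γ.flip δ) t ≤ Y δ t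
      rw [← hY]
      exact (Y δ).monotone hb
  have hs : ∀ t, Reg a z t → (b ^ p') t ≤ (a ^ q') t := fun t ht =>
    slope_all hc hz hlt (reg_self a z) hn ht
  have le : ∀ t, Reg a z t → b t ≤ a t := by
    intro t ht
    by_contra hb
    push Not at hb
    have e1 := pow_lt_of hc hb (show 0 < p' by omega)
    have e2 : (a ^ q') t ≤ (a ^ p') t := by
      obtain ⟨e, he⟩ : ∃ e, p' = q' + e := ⟨p' - q', by omega⟩
      rw [he, pow_add, RelIso.mul_apply]
      exact (a ^ q').monotone (Pool.Agent.Helper31.OrderAct.pow_ge (reg_lt hz ht).le e)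
    exact absurd (hs t ht) (not_le.mpr (e2.trans_lt e1))
  have S : LSys Γ δ X Y a b z := ⟨harm, hX, hY, hc, hz, up, le⟩
  refine not_up S.sys S.gt' (p := p') (q := q') (fun t _ => ?_) hq' hpq' n len w A (fun i => ?_) ha
    h1 h2
  · by_cases ht : Reg a z t
    · rw [(S.pow_a q' ht).1, (S.pow_b p' ht).1]
      exact hs t ht
    · rw [S.pow_a_out q' ht, S.pow_b_out p' ht]
  · obtain ⟨ℓ, e1, e2⟩ := (hr i).length
    exact ⟨(hr i).arc, (hr i).side, ⟨ℓ, fun l hl => ⟨(e1 l hl).1, S.slope (e1 l hl).2⟩, e2⟩⟩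

end point

end Pool.Agent.Helper1.T4
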