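import Mathlib
import Pool.Agent.Helper1.T4.Point

/-!
The slope of a piece with paths side by side, in every action on a complete linear order.
-/

set_option autoImplicit false

namespace Pool.Agent.Helper1.T4

open Pool.Agent.Helper42.Th Pool.Agent.Helper31.T3 Pool.Agent.Helper42.T3 Pool.Agent.Helper42.T4
open Pool.Agent.Helper31.OrderAct Pool.Agent.Helper71.Rot Pool.Agent.Helper71.Tree

variable {E : Type} [Finite E] {G : Type*} [Group G] {Γ : CMap E} (L : Lab G Γ) (δ : E)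
  (P : Set E) (F : E → Set G)

/-- All edges but `δ` are positive, and the paths `w i` of length at most `n i` join the ends of
`δ` side by side; the slope `q / p` is smaller than a slope for which the condition of Jankins
and Neumann does not hold. -/
structure Piece (p q : ℕ) {j : ℕ} (n len : Fin j → ℕ) (w : Fin j → ℕ → E)
    (A : Fin j → E → Prop) : Prop where
  hP : ∀ d, d ≠ δ → d ≠ Γ.flip δ → d ∈ P ∨ Γ.flip d ∈ P
  hpos : ∀ d ∈ P, Fill true 0 (L.M d) (L.D d) (F d)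
  hr : ∀ i, Route L δ (n i) (len i) (w i) (A i)
  ha : ∀ i i', i ≠ i' → Apart Γ (len i) (len i') (w i) (w i') (A i) (A i')
  slope : ∃ p' q' : ℕ, 0 < q' ∧ q' ≤ p' ∧ q * p' < q' * p ∧
    (q' : ℚ) / p' < ∑ i, 1 / (n i : ℚ) ∧ ¬ Realizable ((q' : ℚ) / p') n

variable {L δ P F} {p q j : ℕ} {n len : Fin j → ℕ} {w : Fin j → ℕ → E} {A : Fin j → E → Prop}

theorem Piece.up (S : Piece L δ P F p q n len w A) {Ω : Type*} [CompleteLinearOrder Ω]
    (ρ : G →* (Ω ≃o Ω)) {z : Ω} (hz : z < ρ (L.D δ) z) :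
    (ρ (L.D δ) ^ q) z < (ρ (L.M δ)⁻¹ ^ p) z := by
  obtain ⟨p', q', h1, h2, h3, h4, h5⟩ := S.slope
  have hc : Commute (L.M δ) (L.D δ) := comm_MD L δ
  refine point (harm_of_fill L ρ S.hP fun d hd => spec_of_fill ρ (S.hpos d hd)) (X_D L ρ δ) ?_ ?_
    h1 h2 h3 n len w A (fun i => routeS_of ρ (S.hr i)) S.ha h4 h5 hz
  · intro z
    change ρ (L.y δ) (ρ (L.M δ)⁻¹ z) = ρ (L.y (Γ.flip δ)) z
    rw [← RelIso.mul_apply, ← map_mul, Lab.M, mul_inv_rev, inv_inv, mul_inv_cancel_left]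
  · intro z
    rw [← RelIso.mul_apply, ← RelIso.mul_apply, ← map_mul, ← map_mul]
    congr 2
    exact hc.symm.inv_right.eq

/-- The action on the opposite order. -/
def opAct {Ω : Type*} [CompleteLinearOrder Ω] (ρ : G →* (Ω ≃o Ω)) : G →* (Ωᵒᵈ ≃o Ωᵒᵈ) where
  toFun g := (ρ g).dual
  map_one' := by
    rw [map_one]
    rfl
  map_mul' g h := by
    rw [map_mul]
    rfl

lemma dual_pow {Ω : Type*} [LinearOrder Ω] (φ : Ω ≃o Ω) (n : ℕ) (z : Ω) :
    (φ.dual ^ n) (OrderDual.toDual z) = OrderDual.toDual ((φ ^ n) z) := by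
  induction n with
  | zero => rfl
  | succ n ih =>
    rw [pow_succ', pow_succ', RelIso.mul_apply, RelIso.mul_apply, ih]
    rfl

theorem Piece.dn (S : Piece L δ P F p q n len w A) {Ω : Type*} [CompleteLinearOrder Ω]
    (ρ : G →* (Ω ≃o Ω)) {z : Ω} (hz : ρ (L.D δ) z < z) :
    (ρ (L.M δ)⁻¹ ^ p) z < (ρ (L.D δ) ^ q) z := by
  have h1 : OrderDual.toDual z < opAct ρ (L.D δ) (OrderDual.toDual z) := hz
  have h2 := S.up (opAct ρ) h1
  change ((ρ (L.D δ)).dual ^ q) (OrderDual.toDual z) <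
    ((ρ (L.M δ)⁻¹).dual ^ p) (OrderDual.toDual z) at h2
  rw [dual_pow, dual_pow] at h2
  exact h2

end Pool.Agent.Helper1.T4
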